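import Mathlib

set_option autoImplicit false

namespace Pool.Agent.Results.MP_cd4b59_co.PathSevenNine

/-- `w` is a private neighbour of `v` with respect to the set `D` (closed neighbourhoods). -/
def IsPrivate {V : Type*} (G : SimpleGraph V) (D : Finset V) (v w : V) : Prop :=
  (w = v ∨ G.Adj v w) ∧ ∀ u ∈ D, u ≠ v → ¬ (w = u ∨ G.Adj u w)

/-- `D` is irredundant: every member has a private neighbour. -/
def Irredundant {V : Type*} (G : SimpleGraph V) (D : Finset V) : Prop :=
  ∀ v ∈ D, ∃ w, IsPrivate G D v w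

/-- `D` is an `IR(G)`-set: an irredundant set of maximum size. -/
def IsIRSet {V : Type*} (G : SimpleGraph V) (D : Finset V) : Prop :=
  Irredundant G D ∧ ∀ T : Finset V, Irredundant G T → T.card ≤ D.card

/-- The IR-graph `G(IR)`: its vertices are the IR-sets; `D, D'` are adjacent when
`D' = (D - {u}) ∪ {v}` with `u ∈ D`, `v ∈ D' - {u}` and `uv` an edge of `G`. -/
def IRGraph {V : Type*} [DecidableEq V] (G : SimpleGraph V) :
    SimpleGraph {D : Finset V // IsIRSet G D} where
  Adj D D' := ∃ u ∈ D.1, ∃ v ∈ D'.1, v ≠ u ∧ G.Adj u v ∧ D'.1 = insert v (D.1.erase u)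
  symm := ⟨by
    rintro ⟨D, hD⟩ ⟨D', hD'⟩ ⟨u, hu, v, hv, hvu, huv, hDD⟩
    simp only at hu hv hDD ⊢
    have hc1 := hD.2 D' hD'.1
    have hc2 := hD'.2 D hD.1
    have hvn : v ∉ D.erase u := by
      intro h
      rw [Finset.insert_eq_of_mem h] at hDD
      have := Finset.card_erase_lt_of_mem hu
      rw [← hDD] at this
      omega
    refine ⟨v, hv, u, hu, hvu.symm, huv.symm, ?_⟩
    rw [hDD, Finset.erase_insert hvn, Finset.insert_erase hu]⟩
  loopless := ⟨by
    rintro ⟨D, hD⟩ ⟨u, hu, v, hv, hvu, huv, hDD⟩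
    simp only at hu hDD
    rw [hDD] at hu
    rcases Finset.mem_insert.1 hu with h | h
    · exact hvu h.symm
    · exact (Finset.mem_erase.1 h).1 rfl⟩

namespace W7

/-- adjacency rows of a graph on 9 vertices as bit masks -/
def row : Fin 9 → ℕ
  | 0 => 480
  | 1 => 472
  | 2 => 440
  | 3 => 214
  | 4 => 302
  | 5 => 341
  | 6 => 171
  | 7 => 79
  | 8 => 55

/-- the graph -/
def G : SimpleGraph (Fin 9) where
  Adj a b := (row a).testBit b.val = true
  symm := ⟨by decide +kernel⟩
  loopless := ⟨by decide +kernel⟩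

instance : DecidableRel G.Adj := fun a b =>
  inferInstanceAs (Decidable ((row a).testBit b.val = true))

instance (D : Finset (Fin 9)) (v w : Fin 9) : Decidable (IsPrivate G D v w) := by
  unfold IsPrivate; infer_instance

instance (D : Finset (Fin 9)) : Decidable (Irredundant G D) := by
  unfold Irredundant; infer_instance

/-- the IR-sets in their cyclic or linear order -/
def sets : Fin 7 → Finset (Fin 9)
  | 0 => {1, 3, 6}
  | 1 => {1, 6, 7}
  | 2 => {0, 1, 7}
  | 3 => {0, 1, 2}
  | 4 => {0, 2, 8}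
  | 5 => {2, 5, 8}
  | 6 => {2, 4, 5}

lemma sets_card : ∀ i, (sets i).card = 3 := by decide +kernel
lemma sets_irr : ∀ i, Irredundant G (sets i) := by decide +kernel
lemma sets_inj : ∀ i j, sets i = sets j → i = j := by decide +kernel
lemma irr_le : ∀ T : Finset (Fin 9), Irredundant G T → T.card ≤ 3 := by decide +kernel
lemma irr_eq : ∀ T : Finset (Fin 9), Irredundant G T → 3 ≤ T.card → ∃ i, sets i = T := by
  decide +kernel

lemma key : ∀ i j : Fin 7,
    (∃ u ∈ sets i, ∃ v ∈ sets j, v ≠ u ∧ G.Adj u v ∧ sets j = insert v ((sets i).erase u)) ↔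
      (i.val + 1 = j.val ∨ j.val + 1 = i.val) := by decide +kernel

/-- the map into the IR-graph -/
def toV (i : Fin 7) : {D : Finset (Fin 9) // IsIRSet G D} :=
  ⟨sets i, sets_irr i, fun T hT => by
    rw [sets_card i]
    exact irr_le T hT⟩

lemma toV_bij : Function.Bijective toV := by
  constructor
  · intro i j h
    exact sets_inj i j (congrArg Subtype.val h)
  · rintro ⟨T, h1, h2⟩
    have h3 : 3 ≤ T.card := by
      have := h2 (sets 0) (sets_irr 0)
      rwa [sets_card 0] at this
    obtain ⟨i, hi⟩ := irr_eq T h1 h3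
    exact ⟨i, Subtype.ext hi⟩

lemma main : Nonempty (IRGraph G ≃g SimpleGraph.pathGraph 7) := by
  refine ⟨RelIso.symm ⟨Equiv.ofBijective toV toV_bij, ?_⟩⟩
  intro i j
  rw [SimpleGraph.pathGraph_adj, ← key i j]
  rfl

end W7

namespace W9

/-- adjacency rows of a graph on 9 vertices as bit masks -/
def row : Fin 9 → ℕ
  | 0 => 450
  | 1 => 417
  | 2 => 344
  | 3 => 180
  | 4 => 108
  | 5 => 410
  | 6 => 405
  | 7 => 107
  | 8 => 103

/-- the graph -/
def G : SimpleGraph (Fin 9) where
  Adj a b := (row a).testBit b.val = true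
  symm := ⟨by decide +kernel⟩
  loopless := ⟨by decide +kernel⟩

instance : DecidableRel G.Adj := fun a b =>
  inferInstanceAs (Decidable ((row a).testBit b.val = true))

instance (D : Finset (Fin 9)) (v w : Fin 9) : Decidable (IsPrivate G D v w) := by
  unfold IsPrivate; infer_instance

instance (D : Finset (Fin 9)) : Decidable (Irredundant G D) := by
  unfold Irredundant; infer_instance

/-- the IR-sets in their cyclic or linear order -/
def sets : Fin 9 → Finset (Fin 9)
  | 0 => {0, 2, 5}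
  | 1 => {0, 2, 8}
  | 2 => {2, 6, 8}
  | 3 => {4, 6, 8}
  | 4 => {4, 7, 8}
  | 5 => {4, 5, 7}
  | 6 => {3, 5, 7}
  | 7 => {1, 3, 7}
  | 8 => {1, 3, 6}

lemma sets_card : ∀ i, (sets i).card = 3 := by decide +kernel
lemma sets_irr : ∀ i, Irredundant G (sets i) := by decide +kernel
lemma sets_inj : ∀ i j, sets i = sets j → i = j := by decide +kernel
lemma irr_le : ∀ T : Finset (Fin 9), Irredundant G T → T.card ≤ 3 := by decide +kernel
lemma irr_eq : ∀ T : Finset (Fin 9), Irredundant G T → 3 ≤ T.card → ∃ i, sets i = T := by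
  decide +kernel

lemma key : ∀ i j : Fin 9,
    (∃ u ∈ sets i, ∃ v ∈ sets j, v ≠ u ∧ G.Adj u v ∧ sets j = insert v ((sets i).erase u)) ↔
      (i.val + 1 = j.val ∨ j.val + 1 = i.val) := by decide +kernel

/-- the map into the IR-graph -/
def toV (i : Fin 9) : {D : Finset (Fin 9) // IsIRSet G D} :=
  ⟨sets i, sets_irr i, fun T hT => by
    rw [sets_card i]
    exact irr_le T hT⟩

lemma toV_bij : Function.Bijective toV := by
  constructor
  · intro i j h
    exact sets_inj i j (congrArg Subtype.val h)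
  · rintro ⟨T, h1, h2⟩
    have h3 : 3 ≤ T.card := by
      have := h2 (sets 0) (sets_irr 0)
      rwa [sets_card 0] at this
    obtain ⟨i, hi⟩ := irr_eq T h1 h3
    exact ⟨i, Subtype.ext hi⟩

lemma main : Nonempty (IRGraph G ≃g SimpleGraph.pathGraph 9) := by
  refine ⟨RelIso.symm ⟨Equiv.ofBijective toV toV_bij, ?_⟩⟩
  intro i j
  rw [SimpleGraph.pathGraph_adj, ← key i j]
  rfl

end W9

/-- The paths on seven and on nine vertices are IR-graphs (of graphs on nine vertices).  Hence it is
false that no path `P_n`, `n ≥ 3`, is an IR-graph. -/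
theorem result :
    (∃ G : SimpleGraph (Fin 9), Nonempty (IRGraph G ≃g SimpleGraph.pathGraph 7)) ∧
    (∃ G : SimpleGraph (Fin 9), Nonempty (IRGraph G ≃g SimpleGraph.pathGraph 9)) ∧
    ¬ (∀ n : ℕ, 3 ≤ n → ∀ (m : ℕ) (G : SimpleGraph (Fin m)),
        IsEmpty (IRGraph G ≃g SimpleGraph.pathGraph n)) := by
  refine ⟨⟨W7.G, W7.main⟩, ⟨W9.G, W9.main⟩, fun H => ?_⟩
  exact (not_nonempty_iff.2 (H 7 (by norm_num) 9 W7.G)) W7.main

end Pool.Agent.Results.MP_cd4b59_co.PathSevenNine
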